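import Mathlib
import Pool.Agent.X129.ME.Fin

/-!
# Large sets of integers with small multiplicative energy

The pair `(α, β)` is attained for all `α > 3/4 - (log 2)/2 = 0.4034...` and all
`β > α - (3/4 - (log 2)/2)`; in particular there are attained pairs with `α + β < 1/2`.
The sets consist of integers with exactly `⌊κ log log N⌋` prime factors, `κ < 1/4`.
-/

set_option autoImplicit false

namespace Pool.Agent.Results.MP_2883d2_nt.FewPrimeFactors

open Filter

/-- `E (B, N)`: the number of quadruples `(a, b, c, d)` with `a, c ∈ B`, `1 ≤ b, d ≤ N` and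
`a b = c d`; a quadruple is written `((a, b), (c, d))` -/
def energy (B : Finset ℕ) (N : ℕ) : ℕ :=
  (((B ×ˢ Finset.Icc 1 N) ×ˢ (B ×ˢ Finset.Icc 1 N)).filter
    (fun q => q.1.1 * q.1.2 = q.2.1 * q.2.2)).card

/-- there is a family `B N ⊆ {1, ..., N}` of density `(log N) ^ (-α)` with
`E (B N, N) ≤ D N |B N| (log N) ^ β` for all large `N` -/
def Attained (α β : ℝ) : Prop :=
  ∃ B : ℕ → Finset ℕ, (∀ N, B N ⊆ Finset.Icc 1 N) ∧
    ∃ c C D : ℝ, 0 < c ∧ 0 < C ∧ ∃ N₀ : ℕ, ∀ N : ℕ, N₀ ≤ N →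
      c * (N * (Real.log N) ^ (-α)) ≤ ((B N).card : ℝ) ∧
      ((B N).card : ℝ) ≤ C * (N * (Real.log N) ^ (-α)) ∧
      (energy (B N) N : ℝ) ≤ D * (N * (B N).card * (Real.log N) ^ β)

lemma energy_eq (B : Finset ℕ) (N : ℕ) : energy B N = Pool.Agent.X129.ME.energy B N := rfl

theorem attained (α β : ℝ) (h1 : 3 / 4 - Real.log 2 / 2 < α)
    (h2 : α - (3 / 4 - Real.log 2 / 2) < β) : Attained α β := by
  have hQ : Pool.Agent.X129.ME.Qx (1 / 4) = 3 / 4 - Real.log 2 / 2 := by
    unfold Pool.Agent.X129.ME.Qx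
    have : Real.log (1 / 4) = -(2 * Real.log 2) := by
      rw [one_div, Real.log_inv, show (4 : ℝ) = 2 ^ 2 by norm_num, Real.log_pow]
      push_cast
      ring
    rw [this]
    ring
  have hcont : ContinuousAt Pool.Agent.X129.ME.Qx (1 / 4) := by
    have h3 : ContinuousAt (fun κ : ℝ => κ * Real.log κ - κ + 1) (1 / 4) := by
      have : ContinuousAt Real.log (1 / 4) := Real.continuousAt_log (by norm_num)
      exact ((continuousAt_id.mul this).sub continuousAt_id).add continuousAt_const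
    exact h3
  have hev : ∀ᶠ κ in nhds (1 / 4 : ℝ), Pool.Agent.X129.ME.Qx κ ∈ Set.Ioo (α - β) α := by
    apply hcont.eventually_mem
    apply Ioo_mem_nhds
    · rw [hQ]; linarith
    · rw [hQ]; exact h1
  obtain ⟨ε, hε, hball⟩ := Metric.eventually_nhds_iff.1 hev
  obtain ⟨κ, hκ⟩ : ∃ κ : ℝ, κ = 1 / 4 - min (ε / 2) (1 / 8) := ⟨_, rfl⟩
  have h3 : 0 < min (ε / 2) (1 / 8) := lt_min (by linarith) (by norm_num)
  have h4 : min (ε / 2) (1 / 8) ≤ 1 / 8 := min_le_right _ _
  have h5 : min (ε / 2) (1 / 8) ≤ ε / 2 := min_le_left _ _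
  have h6 : dist κ (1 / 4) < ε := by
    rw [Real.dist_eq, hκ, show (1 / 4 : ℝ) - min (ε / 2) (1 / 8) - 1 / 4 = -min (ε / 2) (1 / 8) by ring,
      abs_neg, abs_of_pos h3]
    linarith
  obtain ⟨h7, h8⟩ := hball h6
  obtain ⟨B, hB, D, hD, hmain⟩ := Pool.Agent.X129.ME.main (κ := κ) (α := α)
    (by linarith) (by linarith) h8
  obtain ⟨N₀, hN₀⟩ := eventually_atTop.1 hmain
  refine ⟨B, hB, 1, 2, D, one_pos, two_pos, max N₀ 3, fun N hN => ?_⟩
  obtain ⟨h9, h10, h11⟩ := hN₀ N ((le_max_left _ _).trans hN)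
  have hN3 : (3 : ℝ) ≤ N := by exact_mod_cast (le_max_right _ _).trans hN
  have hlog : 1 ≤ Real.log N := by
    have h5 := Real.log_le_log (by norm_num) hN3
    have h6 : 1 ≤ Real.log 3 := by
      rw [Real.le_log_iff_exp_le (by norm_num)]
      have := Real.exp_one_lt_d9
      linarith
    linarith
  refine ⟨by rw [one_mul]; exact h9, h10, ?_⟩
  rw [energy_eq]
  refine h11.trans ?_
  apply mul_le_mul_of_nonneg_left _ hD.le
  apply mul_le_mul_of_nonneg_left _ (by positivity)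
  exact Real.rpow_le_rpow_of_exponent_le hlog (by linarith)

/-- **Main theorem.** Every pair `(α, β)` with `α > 3/4 - (log 2)/2` and
`β > α - (3/4 - (log 2)/2)` is attained; there are `α, β ≥ 0` with `α + β < 1/2` for which `(α, β)` is
attained (for instance `(0.41, 0.01)`). -/
theorem result :
    (∀ α β : ℝ, 3 / 4 - Real.log 2 / 2 < α → α - (3 / 4 - Real.log 2 / 2) < β → Attained α β) ∧
    ∃ α β : ℝ, 0 ≤ α ∧ 0 ≤ β ∧ α + β < 1 / 2 ∧ Attained α β := by
  refine ⟨attained, 41 / 100, 1 / 100, by norm_num, by norm_num, by norm_num, ?_⟩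
  have h1 := Real.log_two_gt_d9
  have h2 := Real.log_two_lt_d9
  exact attained _ _ (by linarith) (by linarith)

end Pool.Agent.Results.MP_2883d2_nt.FewPrimeFactors
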